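import Mathlib
import Pool.Agent.W7h60.QQ.Good
import Pool.Agent.Helper460_PR.Fin

/-!
# Commutators of automorphisms which act trivially on the abelianisation
-/

set_option autoImplicit false

namespace Pool.Agent.U181.PF

open Pool.Agent.Helper156.OF Pool.Agent.W7h60.QQ
open scoped commutatorElement

variable {α : Type} [DecidableEq α] [Fintype α] {R : Type} [CommRing R]

lemma sgm_one (x : SS α R) : sgm (1 : Matrix α α R) x = x := by
  ext : 1
  · exact sgm_fst _ _
  · unfold sgm
    rw [TrivSqZeroExt.snd_map]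
    show Matrix.vecMul x.snd 1 = x.snd
    rw [Matrix.vecMul_one]

lemma jm {ψ φ : MulAut (FreeGroup α)} (h : g0 (R := R) ψ = 1) :
    J (R := R) (ψ * φ) = J φ * J ψ := by
  rw [J_mul, h]
  congr 1
  apply Matrix.ext
  intro i j
  exact sgm_one (R := R) _

omit [DecidableEq α] [Fintype α] in
lemma ss_zero {x y : SS α R} (hx : x.fst = 0) (hy : y.fst = 0) : x * y = 0 := by
  ext : 1
  · rw [TrivSqZeroExt.fst_mul, hx, zero_mul, TrivSqZeroExt.fst_zero]
  · rw [TrivSqZeroExt.snd_mul, hx, hy, zero_smul, MulOpposite.op_zero, zero_smul, add_zero,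
      TrivSqZeroExt.snd_zero]

lemma mat_zero {X Y : Matrix α α (SS α R)} (hX : ∀ i j, (X i j).fst = 0)
    (hY : ∀ i j, (Y i j).fst = 0) : X * Y = 0 := by
  apply Matrix.ext
  intro i j
  rw [Matrix.mul_apply]
  exact Finset.sum_eq_zero fun k _ => ss_zero (hX _ _) (hY _ _)

lemma sub_fst {ψ : MulAut (FreeGroup α)} (h : g0 (R := R) ψ = 1) (i j : α) :
    ((J (R := R) ψ - 1) i j).fst = 0 := by
  rw [Matrix.sub_apply, TrivSqZeroExt.fst_sub, J_fst, h, Matrix.one_apply, Matrix.one_apply]
  split_ifs <;> simp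

lemma jc {ψ φ : MulAut (FreeGroup α)} (h : g0 (R := R) ψ = 1) (h' : g0 (R := R) φ = 1) :
    J (R := R) φ * J ψ = J ψ * J φ := by
  have h1 := mat_zero (sub_fst h) (sub_fst h')
  have h2 := mat_zero (sub_fst h') (sub_fst h)
  have h3 : (J (R := R) φ - 1) * (J ψ - 1) = (J ψ - 1) * (J φ - 1) := by rw [h1, h2]
  generalize J (R := R) φ = A at h3
  generalize J (R := R) ψ = B at h3
  have e1 : (A - 1) * (B - 1) = A * B - (A + B - 1) := by noncomm_ring
  have e2 : (B - 1) * (A - 1) = B * A - (A + B - 1) := by noncomm_ring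
  rw [e1, e2] at h3
  exact sub_left_injective h3

lemma g0_inv {ψ : MulAut (FreeGroup α)} (h : g0 (R := R) ψ = 1) : g0 (R := R) ψ⁻¹ = 1 := by
  have := g0_mul (R := R) ψ ψ⁻¹
  rw [mul_inv_cancel, g0_one, h, mul_one] at this
  exact this.symm

/-- Commutators have trivial Jacobian. -/
lemma J_comm {ψ φ : MulAut (FreeGroup α)} (h : g0 (R := R) ψ = 1) (h' : g0 (R := R) φ = 1) :
    J (R := R) ⁅ψ, φ⁆ = 1 := by
  have i1 := g0_inv h
  have i2 := g0_inv h'
  have e1 : J (R := R) ψ * J ψ⁻¹ = 1 := by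
    rw [← jm i1, inv_mul_cancel, J_one]
  have e2 : J (R := R) φ * J φ⁻¹ = 1 := by
    rw [← jm i2, inv_mul_cancel, J_one]
  have c1 := jc h' i1
  have c2 := jc h' i2
  have c3 := jc h i1
  rw [commutatorElement_def, mul_assoc, mul_assoc, jm h, jm h', jm i1]
  generalize J (R := R) φ = A at *
  generalize J (R := R) ψ = B at *
  generalize J (R := R) φ⁻¹ = A' at *
  generalize J (R := R) ψ⁻¹ = B' at *
  calc A' * B' * A * B = A' * (B' * A) * B := by rw [mul_assoc A' B' A]
    _ = A' * (A * B') * B := by rw [c1]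
    _ = (A' * A) * (B' * B) := by rw [← mul_assoc A' A B', mul_assoc (A' * A) B' B]
    _ = (A * A') * (B * B') := by rw [c2, c3]
    _ = 1 := by rw [e1, e2, mul_one]

/-- A trivial Jacobian means trivial action on the Magnus images. -/
lemma mg_of_J {ψ : MulAut (FreeGroup α)} (h : J (R := R) ψ = 1) (i : α) :
    mg (R := R) (ψ (FreeGroup.of i)) = mg (FreeGroup.of i) := by
  have hv : (mg (R := R) (ψ (FreeGroup.of i))).v = (mg (R := R) (FreeGroup.of i)).v := by
    funext j
    have h1 := congrArg (fun M : Matrix α α (SS α R) => M i j) h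
    have h2 := congrArg (fun M : Matrix α α (SS α R) => M i j) (J_one (ι := α) (R := R))
    exact h1.trans h2.symm
  ext : 1
  · rw [mg_a, mg_a]
    congr 1
    funext j
    show ((mg (R := R) (ψ (FreeGroup.of i))).v j).fst = ((mg (R := R) (FreeGroup.of i)).v j).fst
    rw [hv]
  · exact hv

end Pool.Agent.U181.PF
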