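import Mathlib

/-!
# Coinduction of a representation of a normal subgroup of index at most two
-/

set_option autoImplicit false

namespace Pool.Agent.U181.PF

variable {G : Type*} [Group G] (S : Subgroup G) {K V : Type*} [Field K] [AddCommGroup V]
  [Module K V] (f : S →* Module.End K V)

/-- The functions which are equivariant for the subgroup. -/
def Co : Submodule K (G → V) where
  carrier := {φ | ∀ (s : S) (g : G), φ (s * g) = f s (φ g)}
  add_mem' := by
    intro a b ha hb s g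
    rw [Pi.add_apply, Pi.add_apply, ha, hb, map_add]
  zero_mem' := by
    intro s g
    rw [Pi.zero_apply, Pi.zero_apply, map_zero]
  smul_mem' := by
    intro c a ha s g
    rw [Pi.smul_apply, Pi.smul_apply, ha, map_smul]

/-- The coinduced representation. -/
def rC : G →* Module.End K (Co S f) where
  toFun h :=
    { toFun := fun φ => ⟨fun g => φ.1 (g * h), fun s g => by
        show φ.1 (s * g * h) = _
        rw [mul_assoc, φ.2]⟩
      map_add' := fun _ _ => rfl
      map_smul' := fun _ _ => rfl }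
  map_one' := by
    apply LinearMap.ext
    intro φ
    apply Subtype.ext
    funext g
    show φ.1 (g * 1) = φ.1 g
    rw [mul_one]
  map_mul' a b := by
    apply LinearMap.ext
    intro φ
    apply Subtype.ext
    funext g
    show φ.1 (g * (a * b)) = φ.1 (g * a * b)
    rw [mul_assoc]

variable {S} {f}

lemma rC_apply (h : G) (φ : Co S f) (g : G) : (rC S f h φ).1 g = φ.1 (g * h) := rfl

lemma mul_inv_self (g : G) (hg : g ∈ S) (φ : Co S f) (t : G) :
    φ.1 (g * t) = f ⟨g, hg⟩ (φ.1 t) := φ.2 ⟨g, hg⟩ t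

/-- Faithfulness. -/
lemma rC_faithful {s : G} (hs : s ∈ S) (h : rC S f s = 1) : f ⟨s, hs⟩ = 1 := by
  classical
  apply LinearMap.ext
  intro v
  let φ : Co S f := ⟨fun g => if hg : g ∈ S then f ⟨g, hg⟩ v else 0, by
    intro a g
    by_cases hg : g ∈ S
    · have h1 : (a : G) * g ∈ S := mul_mem a.2 hg
      show (if hg : (a : G) * g ∈ S then f ⟨a * g, hg⟩ v else 0) =
        f a (if hg : g ∈ S then f ⟨g, hg⟩ v else 0)
      rw [dif_pos h1, dif_pos hg]
      have : (⟨(a : G) * g, h1⟩ : S) = a * ⟨g, hg⟩ := rfl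
      rw [this, map_mul]
      rfl
    · have h1 : ¬ (a : G) * g ∈ S := fun h => hg (by
        have := mul_mem (inv_mem a.2) h
        rwa [inv_mul_cancel_left] at this)
      show (if hg : (a : G) * g ∈ S then f ⟨a * g, hg⟩ v else 0) =
        f a (if hg : g ∈ S then f ⟨g, hg⟩ v else 0)
      rw [dif_neg h1, dif_neg hg, map_zero]⟩
  have h1 : (rC S f s φ).1 1 = φ.1 1 := by rw [h]; rfl
  rw [rC_apply, one_mul] at h1
  have h2 : φ.1 s = f ⟨s, hs⟩ v := dif_pos hs
  have h3 : φ.1 1 = f ⟨1, S.one_mem⟩ v := dif_pos S.one_mem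
  rw [h2, h3] at h1
  rw [h1]
  have : (⟨1, S.one_mem⟩ : S) = 1 := rfl
  rw [this, map_one]

/-- The difference operators. -/
lemma rC_sub (hn : S.Normal) {h : G} (hh : h ∈ S) (φ : Co S f) (g : G) :
    ((rC S f h - 1) φ).1 g = (f ⟨g * h * g⁻¹, hn.conj_mem h hh g⟩ - 1) (φ.1 g) := by
  have h1 : φ.1 (g * h) = f ⟨g * h * g⁻¹, hn.conj_mem h hh g⟩ (φ.1 g) := by
    rw [← mul_inv_self, inv_mul_cancel_right]
  show φ.1 (g * h) - φ.1 g = f ⟨g * h * g⁻¹, _⟩ (φ.1 g) - φ.1 g
  rw [h1]

/-- Products of two difference operators. -/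
lemma rC_rel (hn : S.Normal) {h h' : G} (hh : h ∈ S) (hh' : h' ∈ S)
    (H : ∀ g : G, (f ⟨g * h * g⁻¹, hn.conj_mem h hh g⟩ - 1) *
      (f ⟨g * h' * g⁻¹, hn.conj_mem h' hh' g⟩ - 1) = 0) :
    (rC S f h - 1) * (rC S f h' - 1) = 0 := by
  apply LinearMap.ext
  intro φ
  apply Subtype.ext
  funext g
  show ((rC S f h - 1) ((rC S f h' - 1) φ)).1 g = 0
  rw [rC_sub hn hh, rC_sub hn hh']
  have := congrArg (fun T : Module.End K V => T (φ.1 g)) (H g)
  exact this

end Pool.Agent.U181.PF
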