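import Mathlib
import Pool.Agent.W7h60.QQ.Sgn

/-!
# An embedding of `Aut (F_k)` into the group generated by the transvections of `F_(k+1)`
-/

set_option autoImplicit false

namespace Pool.Agent.U181.PF

open Pool.Agent.Helper156.OF Pool.Agent.W7h60.QQ
open FreeGroup (of)

section det

variable {α : Type} [DecidableEq α] [Fintype α]

/-- The determinant of the action on the abelianisation. -/
noncomputable def dl (α : Type) [DecidableEq α] [Fintype α] : MulAut (FreeGroup α) →* ℤ where
  toFun φ := (J (R := ℤ) φ).det.fst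
  map_one' := by rw [J_one, Matrix.det_one]; rfl
  map_mul' φ ψ := by rw [det_mul', TrivSqZeroExt.fst_mul, sgm_fst, mul_comm]

lemma dl_eAut (x a : Lt α) : dl α (eAut x a) = 1 := by
  show (J (R := ℤ) (eAut x a)).det.fst = 1
  by_cases hxa : x.1 = a.1
  · rw [eAut_junk x a hxa, J_one, Matrix.det_one]; rfl
  · obtain ⟨i, b⟩ := x
    obtain ⟨j, c⟩ := a
    have key : ∀ b : Bool, (J (R := ℤ) (eAut (i, b) (j, true))).det.fst = 1 := by
      intro b
      cases b
      · rw [det_L hxa]; simp
      · rw [det_R hxa]; simp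
    cases c
    · have e1 : eAut (i, b) (j, false) = (eAut (i, b) (j, true))⁻¹ :=
        rel_aut.e1 (i, b) (j, true)
      have e2 : dl α (eAut (i, b) (j, true) * (eAut (i, b) (j, true))⁻¹) = 1 := by
        rw [mul_inv_cancel, map_one]
      have e3 : dl α (eAut (i, b) (j, true)) = 1 := key b
      rw [map_mul, e3, one_mul] at e2
      rw [e1]
      exact e2
    · exact key b

lemma dl_Sg {φ : MulAut (FreeGroup α)} (h : φ ∈ Sg α) : dl α φ = 1 := by
  unfold Sg at h
  induction h using Subgroup.closure_induction with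
  | mem φ hφ =>
    obtain ⟨x, a, rfl⟩ := hφ
    exact dl_eAut x a
  | one => exact map_one _
  | mul x y _ _ hx hy => rw [map_mul, hx, hy, mul_one]
  | inv x _ hx =>
    have e2 : dl α (x * x⁻¹) = 1 := by rw [mul_inv_cancel, map_one]
    rwa [map_mul, hx, one_mul] at e2

omit [Fintype α] in
lemma iv_of (i k : α) : iv ((i, true) : Lt α) (of k) = if k = i then (of i)⁻¹ else of k := by
  unfold iv
  rw [← gl_true k, toAut_gl]
  by_cases hk : k = i
  · subst hk
    rw [swp_left, if_pos rfl, gl_nv, gl_true]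
  · rw [swp_other (by exact hk) (by exact hk), if_neg hk]

lemma dl_iv (i : α) : dl α (iv ((i, true) : Lt α)) = -1 := by
  have e2 : J (R := ℤ) (iv ((i, true) : Lt α)) =
      Matrix.diagonal (Function.update 1 i
        (-((eu (-Pi.single i 1 : α → ℤ) : (SS α ℤ)ˣ) : SS α ℤ))) := by
    apply Matrix.ext
    intro k l
    show (mg (R := ℤ) (iv ((i, true) : Lt α) (FreeGroup.of k))).v l = _
    rw [iv_of, Matrix.diagonal_apply]
    by_cases hk : k = i
    · subst hk
      rw [if_pos rfl, map_inv, Aff.inv_v, mg_of, Pi.neg_apply, Pi.smul_apply, eu_neg,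
        Function.update_self]
      simp only [Pi.single_apply, smul_eq_mul, eq_comm]
      split_ifs <;> simp
    · rw [if_neg hk, mg_of, Function.update_of_ne hk]
      simp only [Pi.single_apply, Pi.one_apply, eq_comm]
  show (J (R := ℤ) (iv ((i, true) : Lt α))).det.fst = -1
  rw [e2, Matrix.det_diagonal, Finset.prod_update_of_mem (Finset.mem_univ i)]
  simp only [Pi.one_apply, Finset.prod_const_one, mul_one, eu_val]
  simp

end det

section emb

variable {k : ℕ}

/-- The inclusion of the letters. -/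
def cs (x : Lt (Fin k)) : Lt (Fin (k + 1)) := (x.1.castSucc, x.2)

lemma cs_nv (x : Lt (Fin k)) : cs (nv x) = nv (cs x) := rfl

lemma cs_inj {x y : Lt (Fin k)} (h : cs x = cs y) : x = y := by
  have h1 := congrArg Prod.fst h
  have h2 : (cs x).2 = (cs y).2 := by rw [h]
  exact Prod.ext (Fin.castSucc_injective k h1) h2

/-- The extension of an endomorphism. -/
def eh (ψ : MulAut (FreeGroup (Fin k))) (s : ℤˣ) :
    FreeGroup (Fin (k + 1)) →* FreeGroup (Fin (k + 1)) :=
  FreeGroup.lift (Fin.lastCases (motive := fun _ => FreeGroup (Fin (k + 1)))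
    (of (Fin.last k) ^ (s : ℤ)) (fun j => FreeGroup.map Fin.castSucc (ψ (of j))))

lemma eh_last (ψ : MulAut (FreeGroup (Fin k))) (s : ℤˣ) :
    eh ψ s (of (Fin.last k)) = of (Fin.last k) ^ (s : ℤ) := by
  unfold eh
  rw [FreeGroup.lift_apply_of, Fin.lastCases_last]

lemma eh_castSucc (ψ : MulAut (FreeGroup (Fin k))) (s : ℤˣ) (j : Fin k) :
    eh ψ s (of j.castSucc) = FreeGroup.map Fin.castSucc (ψ (of j)) := by
  unfold eh
  rw [FreeGroup.lift_apply_of, Fin.lastCases_castSucc]

lemma eh_map (ψ : MulAut (FreeGroup (Fin k))) (s : ℤˣ) (u : FreeGroup (Fin k)) :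
    eh ψ s (FreeGroup.map Fin.castSucc u) = FreeGroup.map Fin.castSucc (ψ u) := by
  have : (eh ψ s).comp (FreeGroup.map Fin.castSucc) =
      (FreeGroup.map Fin.castSucc).comp (ψ : FreeGroup (Fin k) →* FreeGroup (Fin k)) := by
    apply FreeGroup.ext_hom
    intro j
    rw [MonoidHom.comp_apply, FreeGroup.map.of, eh_castSucc]
    rfl
  exact DFunLike.congr_fun this u

lemma fin_ext {H : Type*} [Monoid H] {f g : FreeGroup (Fin (k + 1)) →* H}
    (h1 : ∀ j : Fin k, f (of j.castSucc) = g (of j.castSucc))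
    (h2 : f (of (Fin.last k)) = g (of (Fin.last k))) : f = g := by
  apply FreeGroup.ext_hom
  intro j
  induction j using Fin.lastCases with
  | last => exact h2
  | cast j => exact h1 j

lemma eh_mul (ψ φ : MulAut (FreeGroup (Fin k))) (s t : ℤˣ) :
    eh (ψ * φ) (s * t) = (eh ψ s).comp (eh φ t) := by
  apply fin_ext
  · intro j
    rw [MonoidHom.comp_apply, eh_castSucc, eh_castSucc, eh_map]
    rfl
  · rw [MonoidHom.comp_apply, eh_last, eh_last, map_zpow, eh_last, ← zpow_mul, Units.val_mul]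

lemma eh_one : eh (1 : MulAut (FreeGroup (Fin k))) 1 = MonoidHom.id _ := by
  apply fin_ext
  · intro j
    rw [eh_castSucc]
    show FreeGroup.map Fin.castSucc (of j) = _
    rw [FreeGroup.map.of]
    rfl
  · rw [eh_last, Units.val_one, zpow_one]
    rfl

/-- The extension of automorphisms. -/
def em (k : ℕ) : MulAut (FreeGroup (Fin k)) × ℤˣ →* MulAut (FreeGroup (Fin (k + 1))) where
  toFun z := MonoidHom.toMulEquiv (eh z.1 z.2) (eh z.1⁻¹ z.2⁻¹)
    (by rw [← eh_mul, inv_mul_cancel, inv_mul_cancel, eh_one])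
    (by rw [← eh_mul, mul_inv_cancel, mul_inv_cancel, eh_one])
  map_one' := by
    apply MulEquiv.ext
    intro u
    show eh 1 1 u = u
    rw [eh_one]
    rfl
  map_mul' a b := by
    apply MulEquiv.ext
    intro u
    show eh (a.1 * b.1) (a.2 * b.2) u = eh a.1 a.2 (eh b.1 b.2 u)
    rw [eh_mul]
    rfl

lemma em_apply (ψ : MulAut (FreeGroup (Fin k))) (s : ℤˣ) (u : FreeGroup (Fin (k + 1))) :
    em k (ψ, s) u = eh ψ s u := rfl

lemma aut_fin_ext {f g : MulAut (FreeGroup (Fin (k + 1)))}
    (h1 : ∀ j : Fin k, f (of j.castSucc) = g (of j.castSucc))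
    (h2 : f (of (Fin.last k)) = g (of (Fin.last k))) : f = g := by
  have h : f.toMonoidHom = g.toMonoidHom := fin_ext h1 h2
  apply MulEquiv.ext
  intro u
  exact DFunLike.congr_fun h u

lemma map_gl (y : Lt (Fin k)) : FreeGroup.map Fin.castSucc (gl y) = gl (cs y) := by
  obtain ⟨i, b⟩ := y
  cases b
  · have e1 : gl ((i, false) : Lt (Fin k)) = (gl (i, true))⁻¹ := gl_nv (i, true)
    have e2 : gl (cs ((i, false) : Lt (Fin k))) = (gl (cs (i, true)))⁻¹ := gl_nv (cs (i, true))
    rw [e1, e2, map_inv]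
    congr 1
  · exact FreeGroup.map.of

lemma em_eAut (x a : Lt (Fin k)) (h : x.1 ≠ a.1) : em k (eAut x a, 1) = eAut (cs x) (cs a) := by
  have h' : (cs x).1 ≠ (cs a).1 := fun h' => h (Fin.castSucc_injective k h')
  apply aut_fin_ext
  · intro j
    rw [em_apply, eh_castSucc, ← gl_true, ← gl_true, eAut_gl, eAut_gl]
    have hj : ((j.castSucc, true) : Lt (Fin (k + 1))) = cs (j, true) := rfl
    rw [hj]
    unfold eFun
    rw [if_neg h, if_neg h']
    by_cases h1 : (j, true) = x
    · subst h1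
      rw [if_pos rfl, if_pos rfl, map_mul, map_gl, map_gl]
    · rw [if_neg h1, if_neg (fun h2 => h1 (cs_inj h2))]
      by_cases h2 : (j, true) = nv x
      · rw [if_pos h2, if_pos (by rw [h2, cs_nv]), map_mul, map_inv, map_inv, map_gl, map_gl]
      · rw [if_neg h2, if_neg (fun h3 => h2 (cs_inj (by rw [h3, cs_nv]))), map_gl]
  · rw [em_apply, eh_last, Units.val_one, zpow_one, ← gl_true, eAut_gl]
    have h1 : ((Fin.last k, true) : Lt (Fin (k + 1))) ≠ cs x := by
      intro h2
      exact absurd (congrArg Prod.fst h2).symm (Fin.castSucc_ne_last x.1)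
    have h2 : ((Fin.last k, true) : Lt (Fin (k + 1))) ≠ nv (cs x) := by
      intro h2
      exact absurd (congrArg Prod.fst h2).symm (Fin.castSucc_ne_last x.1)
    unfold eFun
    rw [if_neg h', if_neg h1, if_neg h2]

lemma em_iv (i : Fin k) : em k (iv (i, true), -1) =
    iv (i.castSucc, true) * iv (Fin.last k, true) := by
  apply aut_fin_ext
  · intro j
    rw [em_apply, eh_castSucc, iv_of, MulAut.mul_apply, iv_of, if_neg (Fin.castSucc_ne_last j),
      iv_of]
    by_cases hj : j = i
    · subst hj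
      rw [if_pos rfl, if_pos rfl, map_inv, FreeGroup.map.of]
    · rw [if_neg hj, if_neg (fun h => hj (Fin.castSucc_injective k h)), FreeGroup.map.of]
  · rw [em_apply, eh_last, MulAut.mul_apply, iv_of, if_pos rfl, map_inv, iv_of,
      if_neg (fun h => Fin.castSucc_ne_last i h.symm)]
    simp

lemma em_Sg {ψ : MulAut (FreeGroup (Fin k))} (h : ψ ∈ Sg (Fin k)) :
    em k (ψ, 1) ∈ Sg (Fin (k + 1)) := by
  unfold Sg at h
  induction h using Subgroup.closure_induction with
  | mem φ hφ =>
    obtain ⟨x, a, rfl⟩ := hφ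
    by_cases hxa : x.1 = a.1
    · rw [eAut_junk x a hxa]
      have : em k (1, 1) = 1 := map_one (em k)
      rw [this]
      exact one_mem _
    · rw [em_eAut x a hxa]
      exact E_mem _ _
  | one =>
    have : em k (1, 1) = 1 := map_one (em k)
    rw [this]
    exact one_mem _
  | mul x y _ _ hx hy =>
    have : em k (x * y, 1) = em k (x, 1) * em k (y, 1) := by
      rw [← map_mul, Prod.mk_mul_mk, mul_one]
    rw [this]
    exact mul_mem hx hy
  | inv x _ hx =>
    have : em k (x⁻¹, 1) = (em k (x, 1))⁻¹ := by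
      rw [← map_inv, Prod.inv_mk, inv_one]
    rw [this]
    exact inv_mem hx

/-- The determinant as a unit. -/
noncomputable def du (k : ℕ) : MulAut (FreeGroup (Fin k)) →* ℤˣ := (dl (Fin k)).toHomUnits

lemma du_val (ψ : MulAut (FreeGroup (Fin k))) : ((du k ψ : ℤˣ) : ℤ) = dl (Fin k) ψ := rfl

lemma du_Sg {ψ : MulAut (FreeGroup (Fin k))} (h : ψ ∈ Sg (Fin k)) : du k ψ = 1 := by
  apply Units.ext
  rw [du_val, dl_Sg h, Units.val_one]

lemma du_iv (i : Fin k) : du k (iv (i, true)) = -1 := by
  apply Units.ext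
  rw [du_val, dl_iv]
  rfl

lemma em_mem (hk : 0 < k) (ψ : MulAut (FreeGroup (Fin k))) :
    em k (ψ, du k ψ) ∈ Sg (Fin (k + 1)) := by
  let i : Fin k := ⟨0, hk⟩
  rcases all_or ((i, true) : Lt (Fin k)) ψ with h | h
  · have e1 : ψ = iv (i, true) * (iv (i, true) * ψ) := by
      rw [← mul_assoc, iv_sq, one_mul]
    have e2 : em k (ψ, du k ψ) = em k (iv (i, true), -1) * em k (iv (i, true) * ψ, 1) := by
      rw [← map_mul, Prod.mk_mul_mk, mul_one, ← e1]
      congr 2
      conv_lhs => rw [e1, map_mul, du_iv, du_Sg h, mul_one]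
    rw [e2, em_iv]
    exact mul_mem (iv_iv _ _) (em_Sg h)
  · rw [du_Sg h]
    exact em_Sg h

/-- The embedding. -/
noncomputable def eM (hk : 0 < k) : MulAut (FreeGroup (Fin k)) →* Sg (Fin (k + 1)) where
  toFun ψ := ⟨em k (ψ, du k ψ), em_mem hk ψ⟩
  map_one' := by
    apply Subtype.ext
    show em k (1, du k 1) = 1
    rw [map_one]
    exact map_one (em k)
  map_mul' a b := by
    apply Subtype.ext
    show em k (a * b, du k (a * b)) = em k (a, du k a) * em k (b, du k b)
    rw [map_mul (du k), ← map_mul (em k), Prod.mk_mul_mk]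

lemma eM_eAut (hk : 0 < k) (x a : Lt (Fin k)) (h : x.1 ≠ a.1) :
    eM hk (eAut x a) = ⟨eAut (cs x) (cs a), E_mem _ _⟩ := by
  apply Subtype.ext
  show em k (eAut x a, du k (eAut x a)) = eAut (cs x) (cs a)
  rw [du_Sg (E_mem x a), em_eAut x a h]

end emb

end Pool.Agent.U181.PF
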