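import Mathlib
import Pool.Agent.W7h60.QR.Cong
import Pool.Agent.W7h60.QR.Std
import Pool.Agent.U181.PF.Co
import Pool.Agent.U181.PF.Emb

/-!
# Small representations of the group generated by the transvections
-/

set_option autoImplicit false

namespace Pool.Agent.U181.PF

open Pool.Agent.Helper156.OF Pool.Agent.W7h60.QQ Pool.Agent.W7h60.QR
open FreeGroup (of)

universe u v

section sgn

variable {α : Type} [DecidableEq α] [Fintype α]

/-- The subgroup is normal. -/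
lemma Sg_normal : (Sg α).Normal := by
  constructor
  intro s hs g
  rcases isEmpty_or_nonempty α with hα | ⟨⟨i⟩⟩
  · have : ∀ z : MulAut (FreeGroup α), z = 1 := fun z => by
      apply MulEquiv.ext
      intro u
      exact Subsingleton.elim _ _
    rw [this (g * s * g⁻¹)]
    exact one_mem _
  · rcases all_or ((i, true) : Lt α) g with h | h
    · have e1 : g = iv (i, true) * (iv (i, true) * g) := by
        rw [← mul_assoc, iv_sq, one_mul]
      have h1 := Sg_conj (swp ((i, true) : Lt α) (nv (i, true)))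
        (mul_mem (mul_mem h hs) (inv_mem h))
      have e2 : g * s * g⁻¹ = iv (i, true) * (iv (i, true) * g * s * (iv (i, true) * g)⁻¹) *
          (iv (i, true))⁻¹ := by
        conv_lhs => rw [e1]
        group
      rw [e2]
      exact h1
    · exact mul_mem (mul_mem h hs) (inv_mem h)

/-- A signed permutation up to a sign change at another place. -/
lemma sg_adj (h5 : 5 ≤ Fintype.card α) {x1 x2 x3 x4 y1 y2 y3 y4 : Lt α}
    (a12 : x1.1 ≠ x2.1) (a13 : x1.1 ≠ x3.1) (a14 : x1.1 ≠ x4.1) (a23 : x2.1 ≠ x3.1)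
    (a24 : x2.1 ≠ x4.1) (a34 : x3.1 ≠ x4.1)
    (b12 : y1.1 ≠ y2.1) (b13 : y1.1 ≠ y3.1) (b14 : y1.1 ≠ y4.1) (b23 : y2.1 ≠ y3.1)
    (b24 : y2.1 ≠ y4.1) (b34 : y3.1 ≠ y4.1) :
    ∃ σ : SP α, toAut σ ∈ Sg α ∧ (σ : Equiv.Perm (Lt α)) x1 = y1 ∧
      (σ : Equiv.Perm (Lt α)) x2 = y2 ∧
      (σ : Equiv.Perm (Lt α)) x3 = y3 ∧ (σ : Equiv.Perm (Lt α)) x4 = y4 := by
  obtain ⟨σ, s1, s2, s3, s4⟩ := sp_four a12 a13 a14 a23 a24 a34 b12 b13 b14 b23 b24 b34
  obtain ⟨e, e1, e2, e3, e4⟩ := out4 h5 y1.1 y2.1 y3.1 y4.1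
  rcases all_or ((e, true) : Lt α) (toAut σ) with h | h
  · refine ⟨swp (e, true) (nv (e, true)) * σ, by rw [map_mul]; exact h, ?_, ?_, ?_, ?_⟩
    · rw [Subgroup.coe_mul, Equiv.Perm.mul_apply, s1]
      exact swp_other (by exact e1.symm) (by exact e1.symm)
    · rw [Subgroup.coe_mul, Equiv.Perm.mul_apply, s2]
      exact swp_other (by exact e2.symm) (by exact e2.symm)
    · rw [Subgroup.coe_mul, Equiv.Perm.mul_apply, s3]
      exact swp_other (by exact e3.symm) (by exact e3.symm)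
    · rw [Subgroup.coe_mul, Equiv.Perm.mul_apply, s4]
      exact swp_other (by exact e4.symm) (by exact e4.symm)
  · exact ⟨σ, h, s1, s2, s3, s4⟩

variable {K : Type u} [Field K] {V : Type v} [AddCommGroup V] [Module K V]

/-- The difference operators of a representation. -/
def Df (f : Sg α →* Module.End K V) (x a : Lt α) : Module.End K V :=
  f ⟨eAut x a, E_mem x a⟩ - 1

omit [Fintype α] in
lemma f_inv_mul (f : Sg α →* Module.End K V) (h : Sg α) : f h⁻¹ * f h = 1 := by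
  rw [← map_mul, inv_mul_cancel, map_one]

omit [Fintype α] in
lemma f_mul_inv (f : Sg α →* Module.End K V) (h : Sg α) : f h * f h⁻¹ = 1 := by
  rw [← map_mul, mul_inv_cancel, map_one]

/-- Conjugation. -/
lemma Df_conj (f : Sg α →* Module.End K V) {σ : SP α} (hσ : toAut σ ∈ Sg α) (x a : Lt α) :
    Df f ((σ : Equiv.Perm (Lt α)) x) ((σ : Equiv.Perm (Lt α)) a) =
      f ⟨toAut σ, hσ⟩ * Df f x a * f ⟨toAut σ, hσ⟩⁻¹ := by
  unfold Df
  have e1 : (⟨eAut ((σ : Equiv.Perm (Lt α)) x) ((σ : Equiv.Perm (Lt α)) a), E_mem _ _⟩ : Sg α) =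
      ⟨toAut σ, hσ⟩ * ⟨eAut x a, E_mem x a⟩ * ⟨toAut σ, hσ⟩⁻¹ := by
    apply Subtype.ext
    exact (rel_aut.e0 σ x a).symm
  rw [e1, map_mul, map_mul, mul_sub, sub_mul, mul_one, f_mul_inv]

/-- One relation gives all relations. -/
lemma rel_all (h5 : 5 ≤ Fintype.card α) (f : Sg α →* Module.End K V) {x1 x2 x3 x4 : Lt α}
    (a12 : x1.1 ≠ x2.1) (a13 : x1.1 ≠ x3.1) (a14 : x1.1 ≠ x4.1) (a23 : x2.1 ≠ x3.1)
    (a24 : x2.1 ≠ x4.1) (a34 : x3.1 ≠ x4.1) (h : Df f x1 x2 * Df f x3 x4 = 0) {y1 y2 y3 y4 : Lt α}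
    (b12 : y1.1 ≠ y2.1) (b13 : y1.1 ≠ y3.1) (b14 : y1.1 ≠ y4.1) (b23 : y2.1 ≠ y3.1)
    (b24 : y2.1 ≠ y4.1) (b34 : y3.1 ≠ y4.1) : Df f y1 y2 * Df f y3 y4 = 0 := by
  obtain ⟨σ, hσ, rfl, rfl, rfl, rfl⟩ :=
    sg_adj h5 a12 a13 a14 a23 a24 a34 b12 b13 b14 b23 b24 b34
  rw [Df_conj f hσ, Df_conj f hσ]
  calc f ⟨toAut σ, hσ⟩ * Df f x1 x2 * f ⟨toAut σ, hσ⟩⁻¹ *
        (f ⟨toAut σ, hσ⟩ * Df f x3 x4 * f ⟨toAut σ, hσ⟩⁻¹)
      = f ⟨toAut σ, hσ⟩ * Df f x1 x2 * (f ⟨toAut σ, hσ⟩⁻¹ * f ⟨toAut σ, hσ⟩) *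
          Df f x3 x4 * f ⟨toAut σ, hσ⟩⁻¹ := by simp only [mul_assoc]
    _ = f ⟨toAut σ, hσ⟩ * (Df f x1 x2 * Df f x3 x4) * f ⟨toAut σ, hσ⟩⁻¹ := by
        rw [f_inv_mul, mul_one]; simp only [mul_assoc]
    _ = 0 := by rw [h, mul_zero, zero_mul]

/-- All conjugates of the relations. -/
lemma rel_conj (f : Sg α →* Module.End K V)
    (H : ∀ x a y b : Lt α, x.1 ≠ a.1 → x.1 ≠ y.1 → x.1 ≠ b.1 → a.1 ≠ y.1 → a.1 ≠ b.1 →
      y.1 ≠ b.1 → Df f x a * Df f y b = 0) {x a y b : Lt α} (h1 : x.1 ≠ a.1) (h2 : x.1 ≠ y.1)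
    (h3 : x.1 ≠ b.1) (h4 : a.1 ≠ y.1) (h5 : a.1 ≠ b.1) (h6 : y.1 ≠ b.1)
    (g : MulAut (FreeGroup α)) :
    (f ⟨g * eAut x a * g⁻¹, Sg_normal.conj_mem _ (E_mem x a) g⟩ - 1) *
      (f ⟨g * eAut y b * g⁻¹, Sg_normal.conj_mem _ (E_mem y b) g⟩ - 1) = 0 := by
  -- reduce to `g = s * toAut σ`
  obtain ⟨s, hs, σ, rfl⟩ : ∃ s : MulAut (FreeGroup α), s ∈ Sg α ∧ ∃ σ : SP α,
      g = s * toAut σ := by
    rcases all_or x g⁻¹ with h | h
    · refine ⟨g * iv x, ?_, swp x (nv x), ?_⟩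
      · have := inv_mem h
        have e : (iv x * g⁻¹)⁻¹ = g * iv x := by
          rw [mul_inv_rev, inv_inv, inv_eq_of_mul_eq_one_left (iv_sq x)]
        rwa [e] at this
      · show g = g * iv x * iv x
        rw [mul_assoc, iv_sq, mul_one]
    · exact ⟨g, by have := inv_mem h; rwa [inv_inv] at this, 1, by rw [map_one, mul_one]⟩
  have key : ∀ z c : Lt α, (f ⟨s * toAut σ * eAut z c * (s * toAut σ)⁻¹,
      Sg_normal.conj_mem _ (E_mem z c) (s * toAut σ)⟩ - 1) =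
      f ⟨s, hs⟩ * Df f ((σ : Equiv.Perm (Lt α)) z) ((σ : Equiv.Perm (Lt α)) c) *
        f ⟨s, hs⟩⁻¹ := by
    intro z c
    unfold Df
    have e1 : (⟨s * toAut σ * eAut z c * (s * toAut σ)⁻¹,
        Sg_normal.conj_mem _ (E_mem z c) (s * toAut σ)⟩ : Sg α) =
        ⟨s, hs⟩ * ⟨eAut ((σ : Equiv.Perm (Lt α)) z) ((σ : Equiv.Perm (Lt α)) c), E_mem _ _⟩ *
          ⟨s, hs⟩⁻¹ := by
      apply Subtype.ext
      show s * toAut σ * eAut z c * (s * toAut σ)⁻¹ = s * eAut _ _ * s⁻¹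
      rw [← rel_aut.e0 σ z c]
      group
    rw [e1, map_mul, map_mul, mul_sub, sub_mul, mul_one, f_mul_inv]
  rw [key, key]
  have hσ1 : ∀ z c : Lt α, z.1 ≠ c.1 →
      ((σ : Equiv.Perm (Lt α)) z).1 ≠ ((σ : Equiv.Perm (Lt α)) c).1 := by
    intro z c h hcon
    rcases fst_eq_iff.1 hcon with h' | h'
    · exact h (congrArg Prod.fst ((σ : Equiv.Perm (Lt α)).injective h'))
    · rw [← SP.map_nv] at h'
      have h'' := congrArg Prod.fst ((σ : Equiv.Perm (Lt α)).injective h')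
      exact h h''
  have hz := H _ _ _ _ (hσ1 _ _ h1) (hσ1 _ _ h2) (hσ1 _ _ h3) (hσ1 _ _ h4) (hσ1 _ _ h5)
    (hσ1 _ _ h6)
  calc f ⟨s, hs⟩ * Df f ((σ : Equiv.Perm (Lt α)) x) ((σ : Equiv.Perm (Lt α)) a) *
        f ⟨s, hs⟩⁻¹ *
        (f ⟨s, hs⟩ * Df f ((σ : Equiv.Perm (Lt α)) y) ((σ : Equiv.Perm (Lt α)) b) *
        f ⟨s, hs⟩⁻¹)
      = f ⟨s, hs⟩ * Df f ((σ : Equiv.Perm (Lt α)) x) ((σ : Equiv.Perm (Lt α)) a) *
        (f ⟨s, hs⟩⁻¹ * f ⟨s, hs⟩) *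
        Df f ((σ : Equiv.Perm (Lt α)) y) ((σ : Equiv.Perm (Lt α)) b) * f ⟨s, hs⟩⁻¹ := by
          simp only [mul_assoc]
    _ = f ⟨s, hs⟩ * (Df f ((σ : Equiv.Perm (Lt α)) x) ((σ : Equiv.Perm (Lt α)) a) *
        Df f ((σ : Equiv.Perm (Lt α)) y) ((σ : Equiv.Perm (Lt α)) b)) * f ⟨s, hs⟩⁻¹ := by
          rw [f_inv_mul, mul_one]; simp only [mul_assoc]
    _ = 0 := by rw [hz, mul_zero, zero_mul]

/-- The coinduced representation satisfies the relations. -/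
lemma drel (f : Sg α →* Module.End K V)
    (H : ∀ x a y b : Lt α, x.1 ≠ a.1 → x.1 ≠ y.1 → x.1 ≠ b.1 → a.1 ≠ y.1 → a.1 ≠ b.1 →
      y.1 ≠ b.1 → Df f x a * Df f y b = 0) :
    DRel (A := Module.End K (Co (Sg α) f)) (rC (Sg α) f) where
  dj := by
    intro x a y b h1 h2 h3 h4 h5 h6
    exact rC_rel Sg_normal (E_mem x a) (E_mem y b) (rel_conj f H h1 h2 h3 h4 h5 h6)

end sgn

/-- Representations of small degree satisfy the relations. -/
lemma small_rel {k : ℕ} {K : Type u} [Field K] {V : Type v} [AddCommGroup V] [Module K V]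
    [FiniteDimensional K V] (hd : Bd k (Module.finrank K V))
    (f : Sg (Fin (k + 1)) →* Module.End K V) (x a y b : Lt (Fin (k + 1))) (h1 : x.1 ≠ a.1)
    (h2 : x.1 ≠ y.1) (h3 : x.1 ≠ b.1) (h4 : a.1 ≠ y.1) (h5 : a.1 ≠ b.1) (h6 : y.1 ≠ b.1) :
    Df f x a * Df f y b = 0 := by
  have hk := hd.card
  have hk0 : 0 < k := by omega
  have H := field_end hd (f.comp (eM hk0))
  let t : ℕ → Fin k := fun i => if h : i < k then ⟨i, h⟩ else ⟨0, hk0⟩
  have ht : ∀ i j : ℕ, i < 4 → j < 4 → i ≠ j → t i ≠ t j := by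
    intro i j hi hj hij h
    have hi' : i < k := by omega
    have hj' : j < k := by omega
    simp only [t, dif_pos hi', dif_pos hj', Fin.mk.injEq] at h
    exact hij h
  have hN : ∀ x a : Lt (Fin k), x.1 ≠ a.1 → N (f.comp (eM hk0)) x a = Df f (cs x) (cs a) := by
    intro x a hxa
    unfold N Df
    rw [MonoidHom.comp_apply, eM_eAut hk0 x a hxa]
  have hc : ∀ x a : Lt (Fin k), x.1 ≠ a.1 → (cs x).1 ≠ (cs a).1 := fun x a h h' =>
    h (Fin.castSucc_injective k h')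
  have t01 := ht 0 1 (by norm_num) (by norm_num) (by norm_num)
  have t02 := ht 0 2 (by norm_num) (by norm_num) (by norm_num)
  have t03 := ht 0 3 (by norm_num) (by norm_num) (by norm_num)
  have t12 := ht 1 2 (by norm_num) (by norm_num) (by norm_num)
  have t13 := ht 1 3 (by norm_num) (by norm_num) (by norm_num)
  have t23 := ht 2 3 (by norm_num) (by norm_num) (by norm_num)
  have k1 := H.dj (t 0, true) (t 1, true) (t 2, true) (t 3, true) t01 t02 t03 t12 t13 t23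
  rw [hN _ _ t01, hN _ _ t23] at k1
  exact rel_all (by rw [Fintype.card_fin]; omega) f (hc _ _ t01) (hc _ _ t02) (hc _ _ t03)
    (hc _ _ t12) (hc _ _ t13) (hc _ _ t23) k1 h1 h2 h3 h4 h5 h6

lemma p_smul {p : ℕ} {W : Type v} [AddCommGroup W] [Module (ZMod p) W]
    (z : Module.End (ZMod p) W) : (p : ℤ) • z = 0 := by
  have h0 : ((p : ℤ) : ZMod p) = 0 := by
    rw [Int.cast_natCast]
    exact CharP.cast_eq_zero _ _
  apply LinearMap.ext
  intro w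
  rw [LinearMap.smul_apply, ← Int.cast_smul_eq_zsmul (ZMod p), h0, zero_smul,
    LinearMap.zero_apply]

/-- Representations of small degree in characteristic `p` are trivial on the automorphisms whose
Jacobian is trivial modulo `p`. -/
lemma small_triv {k p : ℕ} [Fact p.Prime] {V : Type v} [AddCommGroup V]
    [Module (ZMod p) V] [FiniteDimensional (ZMod p) V] (hd : Bd k (Module.finrank (ZMod p) V))
    (f : Sg (Fin (k + 1)) →* Module.End (ZMod p) V) {ψ : MulAut (FreeGroup (Fin (k + 1)))}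
    (hS : ψ ∈ Sg (Fin (k + 1)))
    (h : ∀ i, mg (R := ZMod p) (ψ (FreeGroup.of i)) = mg (FreeGroup.of i)) : f ⟨ψ, hS⟩ = 1 := by
  have hk := hd.card
  have H := drel f (small_rel hd f)
  have h5 : 5 ≤ Fintype.card (Fin (k + 1)) := by rw [Fintype.card_fin]; omega
  have H' := H.srel (by omega)
  apply rC_faithful
  refine triv_mod H' h5 (m := p) ?_ hS h
  intro x a _
  exact p_smul _

end Pool.Agent.U181.PF
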