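import Mathlib
import Pool.Agent.U181.PF.Rel
import Pool.Agent.U181.PF.IA
import Pool.Agent.Helper460_PR.Fin
import Pool.Agent.U943.PR.Grp

/-!
# Quotients of `Aut (F_m)` with the same finite quotients as `SL (n, ℤ)`
-/

set_option autoImplicit false

namespace Pool.Agent.U181.PF

open Pool.Agent.Helper156.OF Pool.Agent.W7h60.QQ Pool.Agent.W7h60.QR
open Pool.Agent.Helper460_PR (SA ro la TT pis pis_surj ro_self ro_ne la_self la_ne ro_mem la_mem)
open Pool.Agent.Helper460_CSP (xv mA xv_of xv_mul xv_one xv_inv)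
open FreeGroup (of)
open scoped commutatorElement

section comparison

variable {m : ℕ}

lemma ro_eq {i j : Fin m} (h : i ≠ j) : ro i j = eAut (i, true) (j, true) := by
  refine Pool.Agent.Helper460_OutF.aut_ext fun k => ?_
  rw [aut_R h k]
  by_cases hk : k = i
  · subst hk; rw [ro_self h, if_pos rfl]
  · rw [ro_ne j hk, if_neg hk]

lemma la_eq {i j : Fin m} (h : i ≠ j) : la i j = (eAut (i, false) (j, true))⁻¹ := by
  apply eq_inv_of_mul_eq_one_left
  refine Pool.Agent.Helper460_OutF.aut_ext fun k => ?_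
  rw [MulAut.mul_apply, aut_L h k, MulAut.one_apply]
  by_cases hk : k = i
  · subst hk
    rw [if_pos rfl, map_mul, map_inv, la_ne j h.symm, la_self h, inv_mul_cancel_left]
  · rw [if_neg hk, la_ne j hk]

lemma SA_le (m : ℕ) : SA m ≤ Sg (Fin m) := by
  unfold SA
  rw [Subgroup.closure_le]
  rintro _ ⟨i, j, hij, rfl | rfl⟩
  · rw [ro_eq hij]
    exact E_mem _ _
  · rw [la_eq hij]
    exact inv_mem (E_mem _ _)

lemma Sg_le (m : ℕ) : Sg (Fin m) ≤ SA m := by
  unfold Sg
  rw [Subgroup.closure_le]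
  rintro _ ⟨⟨i, b⟩, ⟨j, c⟩, rfl⟩
  by_cases hij : i = j
  · rw [eAut_junk _ _ (by exact hij)]
    exact one_mem _
  · have e : ∀ b, eAut (i, b) (j, false) = (eAut (i, b) (j, true))⁻¹ := fun b =>
      rel_aut.e1 (i, b) (j, true)
    have h1 : eAut (i, true) (j, true) ∈ SA m := by
      rw [← ro_eq hij]
      exact ro_mem i j
    have h2 : eAut (i, false) (j, true) ∈ SA m := by
      rw [← inv_inv (eAut (i, false) (j, true)), ← la_eq hij]
      exact inv_mem (la_mem i j)
    cases b <;> cases c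
    · show eAut (i, false) (j, false) ∈ SA m
      rw [e]
      exact inv_mem h2
    · exact h2
    · show eAut (i, true) (j, false) ∈ SA m
      rw [e]
      exact inv_mem h1
    · exact h1

lemma SA_eq (m : ℕ) : SA m = Sg (Fin m) := le_antisymm (SA_le m) (Sg_le m)

variable {R : Type} [CommRing R]

lemma ab_add (x y : FreeGroup (Fin m)) : ab (R := R) (x * y) = ab x + ab y := by
  have h := congrArg Aff.a (map_mul (mg (R := R)) x y)
  rw [Aff.mul_a, mg_a, mg_a, mg_a, ← eu_add] at h
  have h2 := congrArg (fun z : (SS (Fin m) R)ˣ => (z : SS (Fin m) R).snd) h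
  simpa [eu_val] using h2

lemma ab_zero : ab (R := R) (1 : FreeGroup (Fin m)) = 0 := by
  have h := ab_add (R := R) (1 : FreeGroup (Fin m)) 1
  rw [mul_one] at h
  exact left_eq_add.1 h

lemma ab_of' (i : Fin m) : ab (R := R) (of i) = Pi.single i 1 := by
  funext j
  show ((mg (R := R) (of i)).v j).fst = _
  rw [mg_of]
  show ((Pi.single i 1 : Fin m → SS (Fin m) R) j).fst = _
  rcases eq_or_ne j i with rfl | hj
  · simp
  · simp [Pi.single_eq_of_ne hj]

/-- The abelianisation as a vector of exponents. -/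
lemma ab_xv (u : FreeGroup (Fin m)) : ab (R := R) u = fun j => ((xv u j : ℤ) : R) := by
  induction u using FreeGroup.induction_on with
  | C1 =>
    rw [ab_zero, xv_one]
    funext j
    simp
  | of i =>
    rw [ab_of', xv_of]
    funext j
    rcases eq_or_ne j i with rfl | hj
    · simp
    · simp [Pi.single_eq_of_ne hj]
  | inv_of i h =>
    have h1 : ab (R := R) (of i)⁻¹ + ab (of i) = 0 := by
      rw [← ab_add, inv_mul_cancel, ab_zero]
    rw [eq_neg_of_add_eq_zero_left h1, h, xv_inv]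
    funext j
    simp
  | mul x y hx hy =>
    rw [ab_add, hx, hy, xv_mul]
    funext j
    simp

lemma g0_of (g : SA m) (h : pis m g = 1) : g0 (R := R) g.1 = 1 := by
  have h1 : mA g.1 = 1 := congrArg Subtype.val h
  apply Matrix.ext
  intro i j
  show ab (R := R) (g.1 (of i)) j = (1 : Matrix (Fin m) (Fin m) R) i j
  rw [ab_xv]
  have h2 : xv (g.1 (of i)) j = (1 : Matrix (Fin m) (Fin m) ℤ) j i := by
    rw [← h1]
    rfl
  show ((xv (g.1 (of i)) j : ℤ) : R) = _
  rw [h2, Matrix.one_apply, Matrix.one_apply]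
  by_cases hij : i = j
  · subst hij; simp
  · rw [if_neg hij, if_neg (Ne.symm hij), Int.cast_zero]

end comparison

open Pool.Agent.U943.PR in
/-- Quotients of small degree have the same rank. -/
theorem eq_of {n k : ℕ} (hn : 3 ≤ n) (hd : Bd k n) {Λ : Type} [Group Λ]
    (hq : ∀ (Q : Type) [Group Q] [Finite Q],
      (∃ f : Λ →* Q, Function.Surjective f) ↔
      (∃ f : Matrix.SpecialLinearGroup (Fin n) ℤ →* Q, Function.Surjective f))
    (f : SA (k + 1) →* Λ) (hf : Function.Surjective f) : n = k + 1 := by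
  have hk := hd.card
  obtain ⟨p, hp1, hp⟩ := Nat.exists_infinite_primes
    (2 ^ n * n + 2 ^ (k + 1) * (k + 1) + (k + 1) ^ 2 + 3)
  have hpF : Fact p.Prime := ⟨hp⟩
  obtain ⟨φ0, hφ0⟩ := (hq (Matrix.SpecialLinearGroup (Fin n) (ZMod p))).2
    ⟨rp n p, rp_surj hn p⟩
  let φ : SA (k + 1) →* Matrix.SpecialLinearGroup (Fin n) (ZMod p) := φ0.comp f
  have hφ : Function.Surjective φ := hφ0.comp hf
  -- the commutators of elements of the kernel
  have hcomm : ∀ a b : SA (k + 1), pis (k + 1) a = 1 → pis (k + 1) b = 1 → φ ⁅a, b⁆ = 1 := by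
    intro a b ha hb
    let Φ : SA (k + 1) →* Module.End (ZMod p) (Fin n → ZMod p) :=
      { toFun := fun g => Matrix.toLin' (φ g).1
        map_one' := by rw [map_one]; exact Matrix.toLin'_one
        map_mul' := fun a b => by
          rw [map_mul]
          exact Matrix.toLin'_mul _ _ }
    let F : Sg (Fin (k + 1)) →* Module.End (ZMod p) (Fin n → ZMod p) :=
      Φ.comp (Subgroup.inclusion (Sg_le (k + 1)))
    have hfr : Module.finrank (ZMod p) (Fin n → ZMod p) = n := by
      rw [Module.finrank_fintype_fun_eq_card, Fintype.card_fin]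
    have h1 : J (R := ZMod p) ⁅a.1, b.1⁆ = 1 := J_comm (g0_of a ha) (g0_of b hb)
    have h2 := mg_of_J h1
    have hS : ⁅a.1, b.1⁆ ∈ Sg (Fin (k + 1)) := SA_le (k + 1) (⁅a, b⁆ : SA (k + 1)).2
    have h3 : F ⟨⁅a.1, b.1⁆, hS⟩ = 1 := small_triv (by rw [hfr]; exact hd) F hS h2
    apply Subtype.ext
    have h4 : Matrix.toLin' (φ ⁅a, b⁆).1 = Matrix.toLin' 1 := by
      rw [Matrix.toLin'_one]
      exact h3
    exact Matrix.toLin'.injective h4
  let π0 : SA (k + 1) →* Matrix.ProjectiveSpecialLinearGroup (Fin n) (ZMod p) :=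
    (QuotientGroup.mk' _).comp φ
  have hπ0 : Function.Surjective π0 := (QuotientGroup.mk'_surjective _).comp hφ
  have hs := Pool.Agent.H463R3.PSLn.isSimpleGroup_PSL (F := ZMod p) (card3 hn)
  have hker : (pis (k + 1)).ker ≤ π0.ker := by
    have hN : ((pis (k + 1)).ker.map π0).Normal :=
      Subgroup.Normal.map inferInstance π0 hπ0
    rcases hN.eq_bot_or_eq_top with h | h
    · intro a ha
      have h1 : π0 a ∈ (pis (k + 1)).ker.map π0 := ⟨a, ha, rfl⟩
      rw [h] at h1
      exact h1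
    · exfalso
      obtain ⟨x, y, hxy⟩ := psl_nonab (n := n) hn (F := ZMod p)
      apply hxy
      have hx : x ∈ (pis (k + 1)).ker.map π0 := by rw [h]; trivial
      have hy : y ∈ (pis (k + 1)).ker.map π0 := by rw [h]; trivial
      obtain ⟨a, ha, rfl⟩ := hx
      obtain ⟨b, hb, rfl⟩ := hy
      have h1 : π0 ⁅a, b⁆ = 1 := by
        show QuotientGroup.mk' _ (φ ⁅a, b⁆) = 1
        rw [hcomm a b ha hb, map_one]
      rw [map_commutatorElement, commutatorElement_eq_one_iff_mul_comm] at h1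
      exact h1
  let π : SZ (k + 1) →* Matrix.ProjectiveSpecialLinearGroup (Fin n) (ZMod p) :=
    ((pis (k + 1)).liftOfSurjective (pis_surj (k + 1))) ⟨π0, hker⟩
  have hπg : ∀ g, π (pis (k + 1) g) = π0 g := fun g =>
    MonoidHom.liftOfRightInverse_comp_apply _ _ _ _ _
  have hπ : Function.Surjective π := by
    intro x
    obtain ⟨g, rfl⟩ := hπ0 x
    exact ⟨pis (k + 1) g, hπg g⟩
  have hm3 : 3 ≤ k + 1 := by omega
  obtain ⟨q, hq1, hq2⟩ := key_psl hn hm3 π hπ
  have hc := char_eq hn hm3 hq1 (by rw [Nat.card_zmod]; omega) π hπ hq2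
  have hqp : q = p := CharP.eq (ZMod p) hc (ZMod.charP p)
  rw [hqp] at hq2 hc
  exact (orders hn hm3 hp (by omega) (by omega) π hπ hq2).1

open Pool.Agent.U943.PR in
/-- A quotient of the whole automorphism group is a quotient of the group generated by the
transvections. -/
theorem sg_surj {n m : ℕ} (hn : 3 ≤ n) (hm : 0 < m) {Λ : Type} [Group Λ]
    (hq : ∀ (Q : Type) [Group Q] [Finite Q],
      (∃ f : Λ →* Q, Function.Surjective f) ↔
      (∃ f : Matrix.SpecialLinearGroup (Fin n) ℤ →* Q, Function.Surjective f))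
    (f : MulAut (FreeGroup (Fin m)) →* Λ) (hf : Function.Surjective f) :
    Function.Surjective (f.comp (SA m).subtype) := by
  have hN0 : (SA m).Normal := by
    rw [SA_eq]
    exact Sg_normal
  have hN : ((SA m).map f).Normal := Subgroup.Normal.map hN0 f hf
  let i : Fin m := ⟨0, hm⟩
  let c : Λ ⧸ (SA m).map f := QuotientGroup.mk (f (iv (i, true)))
  have hor : ∀ x : Λ ⧸ (SA m).map f, x = 1 ∨ x = c := by
    intro x
    induction x using QuotientGroup.induction_on with
    | H z =>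
      obtain ⟨g, rfl⟩ := hf z
      rcases all_or ((i, true) : Lt (Fin m)) g with h | h
      · right
        show QuotientGroup.mk (f g) = QuotientGroup.mk (f (iv (i, true)))
        rw [eq_comm, QuotientGroup.eq]
        refine ⟨(iv (i, true))⁻¹ * g, ?_, by rw [map_mul, map_inv]⟩
        rw [inv_eq_of_mul_eq_one_left (iv_sq _)]
        exact Sg_le m h
      · left
        exact (QuotientGroup.eq_one_iff _).2 ⟨g, Sg_le m h, rfl⟩
  have hfin : Finite (Λ ⧸ (SA m).map f) := by
    refine Finite.of_surjective (fun b : Bool => if b then 1 else c) ?_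
    intro x
    rcases hor x with h | h
    · exact ⟨true, by rw [h]; rfl⟩
    · exact ⟨false, by rw [h]; rfl⟩
  have hcm : ∀ x y : Λ ⧸ (SA m).map f, x * y = y * x := by
    intro x y
    rcases hor x with h | h <;> rcases hor y with h' | h' <;> rw [h, h']
    · rw [one_mul, mul_one]
    · rw [one_mul, mul_one]
  obtain ⟨ψ, hψ⟩ := (hq (Λ ⧸ (SA m).map f)).1
    ⟨QuotientGroup.mk' _, QuotientGroup.mk'_surjective _⟩
  let _ : CommGroup (Λ ⧸ (SA m).map f) :=
    { (inferInstance : Group (Λ ⧸ (SA m).map f)) with mul_comm := hcm }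
  intro z
  obtain ⟨w, hw⟩ := hψ (QuotientGroup.mk z)
  have h1 : ψ w = 1 := hom_comm_trivial hn ψ w
  rw [h1] at hw
  obtain ⟨s, hs, rfl⟩ := (QuotientGroup.eq_one_iff _).1 hw.symm
  exact ⟨⟨s, hs⟩, rfl⟩

/-- **Main theorem.** -/
theorem main {n m : ℕ} (hn : 3 ≤ n) (hm : 5 ≤ m) (hb : n ≤ m ∨ Bd (m - 1) n) (Λ : Type)
    [Group Λ] (hRF : ∀ g : Λ, g ≠ 1 → ∃ H : Subgroup Λ, H.index ≠ 0 ∧ g ∉ H)
    (hq : ∀ (Q : Type) [Group Q] [Finite Q],
      (∃ f : Λ →* Q, Function.Surjective f) ↔
      (∃ f : Matrix.SpecialLinearGroup (Fin n) ℤ →* Q, Function.Surjective f))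
    (f : SA m →* Λ) (hf : Function.Surjective f) :
    m = n ∧ Nonempty (Λ ≃* Matrix.SpecialLinearGroup (Fin n) ℤ) := by
  have hnm : n ≤ m := by
    rcases hb with h | h
    · exact h
    · obtain ⟨k, rfl⟩ : ∃ k, m = k + 1 := ⟨m - 1, by omega⟩
      rw [Nat.add_sub_cancel] at h
      exact (eq_of hn h hq f hf).le
  exact Pool.Agent.Helper460_PR.prof hn hm hnm Λ hRF hq f hf

end Pool.Agent.U181.PF
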